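import Pool.Agent.H320R.OH.Num
import Pool.Agent.H320R.OH.Poly

/-!
# Irreducibility for all `ℓ` from the Hecke polynomials above one prime number

Let `K` be a number field of any signature, and `θ` a character of the Hecke algebra `𝕋_1(𝔫)`, with the
values `a v = θ(T_v)`, `b v = θ(S_v)` in a number field `E`. Let `ρ` be any continuous two-dimensional
representation of the absolute Galois group of `K` over the algebraic closure of `ℚ_ℓ` which satisfies (i):
for the places `v` above the primes in a set `T` (for example all `p ≠ ℓ` which are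
unramified in `K` and prime to `𝔫`) it is unramified, and the characteristic polynomial of the
(arithmetic) Frobenius elements is `X ^ 2 - a v X + b v N v`. We call a complex number a power of `p`
(`IsPower`) if it is the product of a root of unity and a rational power of `p`.

(1) If `ρ` is reducible, then for each `p` in `T` one can choose roots `z v` of the Hecke polynomials at the
places `v` above `p` such that the product of the `z v` is a power of `p`.

(2) So `ρ` is irreducible if this is impossible for one `p` in `T`.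

(3) If `v` is the only place of `K` above `p` (in `T`) and the Hecke polynomial at `v` has a root which is not a
power of `p`, then `ρ` is irreducible.

So the Hecke polynomials above one prime number `p` give the irreducibility of the representations
`ρ_{θ,λ}` of the question for all `λ` not above `p`. The condition (ii) at `ℓ`, the Ramanujan conjecture and
the irreducibility of the Hecke polynomials are not used.

Proof. By the `ℓ`-adic six exponentials theorem, applied to the transfer to `ℚ` of the character on a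
stable line, this transfer is a rational power of the cyclotomic character up to a character of finite
order.
-/

set_option autoImplicit false

namespace Pool.Agent.Results.MP_976e2b_nt.OneHeckePolynomial

open NumberField IsDedekindDomain Polynomial Matrix Module

section defs

variable {K : Type} [Field K] [NumberField K]

/-- `Q` is a prime ideal above the place `v` of the ring of all algebraic integers. -/
def PrimeOver (v : HeightOneSpectrum (𝓞 K)) (Q : Ideal (𝓞 (AlgebraicClosure K))) : Prop :=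
  Q.IsPrime ∧ Q.comap (algebraMap (𝓞 K) (𝓞 (AlgebraicClosure K))) = v.asIdeal

/-- `g` is in the inertia group at `Q`. -/
def IsInertia (Q : Ideal (𝓞 (AlgebraicClosure K))) (g : Gal(AlgebraicClosure K/K)) : Prop :=
  ∀ x : 𝓞 (AlgebraicClosure K), g • x - x ∈ Q

/-- `g` is an (arithmetic) Frobenius element at the prime ideal `Q` above `v`. -/
def IsFrobenius (v : HeightOneSpectrum (𝓞 K)) (Q : Ideal (𝓞 (AlgebraicClosure K)))
    (g : Gal(AlgebraicClosure K/K)) : Prop :=
  ∀ x : 𝓞 (AlgebraicClosure K), g • x - x ^ Ideal.absNorm v.asIdeal ∈ Q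

/-- The prime number `p` is unramified in `K`. -/
def Unramified (K : Type) [Field K] [NumberField K] (p : ℕ) : Prop :=
  ∀ v : HeightOneSpectrum (𝓞 K), (p : 𝓞 K) ∈ v.asIdeal → (p : 𝓞 K) ∉ v.asIdeal ^ 2

/-- The Hecke polynomial `X ^ 2 - a X + b N` at the place `v` of norm `N`. -/
noncomputable def hecke {E : Type} [Field E] (a b : HeightOneSpectrum (𝓞 K) → E)
    (v : HeightOneSpectrum (𝓞 K)) : E[X] :=
  X ^ 2 - C (a v) * X + C (b v * (Ideal.absNorm v.asIdeal : E))

variable {ℓ : ℕ} [Fact ℓ.Prime]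

/-- The matrix of `g`. -/
noncomputable def mat (ρ : Gal(AlgebraicClosure K/K) →* GL (Fin 2) (PadicAlgCl ℓ))
    (g : Gal(AlgebraicClosure K/K)) : Matrix (Fin 2) (Fin 2) (PadicAlgCl ℓ) :=
  (ρ g : GL (Fin 2) (PadicAlgCl ℓ))

/-- The condition (i) at the place `v`: `ρ` is unramified, and the characteristic polynomial of every
Frobenius element is the Hecke polynomial. -/
structure AttachedAt {E : Type} [Field E] [Algebra E ℂ] (a b : HeightOneSpectrum (𝓞 K) → E)
    (ρ : Gal(AlgebraicClosure K/K) →* GL (Fin 2) (PadicAlgCl ℓ))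
    (ι : PadicAlgCl ℓ →+* ℂ) (v : HeightOneSpectrum (𝓞 K)) : Prop where
  unramified : ∀ Q, PrimeOver v Q → ∀ g, IsInertia Q g → ρ g = 1
  frobenius : ∀ Q, PrimeOver v Q → ∀ g, IsFrobenius v Q g →
    (mat ρ g).charpoly.map ι = (hecke a b v).map (algebraMap E ℂ)

/-- `ρ` is irreducible. -/
def Irreducible (ρ : Gal(AlgebraicClosure K/K) →* GL (Fin 2) (PadicAlgCl ℓ)) : Prop :=
  ∀ U : Submodule (PadicAlgCl ℓ) (Fin 2 → PadicAlgCl ℓ), (∀ g, ∀ x ∈ U, mat ρ g *ᵥ x ∈ U) →
    U = ⊥ ∨ U = ⊤

end defs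

/-- `x` is the product of a root of unity and a rational power of `p`: `x ^ N = p ^ a`. -/
def IsPower (p : ℕ) (x : ℂ) : Prop := ∃ (N : ℕ) (a : ℤ), 0 < N ∧ x ^ N = (p : ℂ) ^ a

/-- There is a choice of roots `z v` of the Hecke polynomials at the places above `p` such that the
product of the `z v` is a power of `p`. -/
def HasRelation {K : Type} [Field K] [NumberField K] {E : Type} [Field E] [Algebra E ℂ]
    (a b : HeightOneSpectrum (𝓞 K) → E) (p : ℕ) : Prop :=
  ∃ z : HeightOneSpectrum (𝓞 K) → ℂ,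
    (∀ v : HeightOneSpectrum (𝓞 K), (p : 𝓞 K) ∈ v.asIdeal → aeval (z v) (hecke a b v) = 0) ∧
    IsPower p (∏ᶠ (v : HeightOneSpectrum (𝓞 K)) (_ : (p : 𝓞 K) ∈ v.asIdeal), z v)

/-- **Irreducibility from the Hecke polynomials above one prime number.** -/
theorem result (K : Type) [Field K] [NumberField K] (E : Type) [Field E] [NumberField E]
    [Algebra E ℂ] (a b : HeightOneSpectrum (𝓞 K) → E) (ℓ : ℕ) [Fact ℓ.Prime]
    (ι : PadicAlgCl ℓ →+* ℂ) (T : Set ℕ) (hT3 : 3 ≤ T.encard)
    (hT : ∀ p ∈ T, p.Prime ∧ p ≠ ℓ ∧ Unramified K p)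
    (ρ : Gal(AlgebraicClosure K/K) →* GL (Fin 2) (PadicAlgCl ℓ)) (hρ : Continuous ρ)
    (hS : ∀ p ∈ T, ∀ v : HeightOneSpectrum (𝓞 K), (p : 𝓞 K) ∈ v.asIdeal → AttachedAt a b ρ ι v) :
    (¬ Irreducible ρ → ∀ p ∈ T, HasRelation a b p) ∧
    ((∃ p ∈ T, ¬ HasRelation a b p) → Irreducible ρ) ∧
    (∀ p ∈ T, ∀ v : HeightOneSpectrum (𝓞 K), (p : 𝓞 K) ∈ v.asIdeal →
      (∀ v' : HeightOneSpectrum (𝓞 K), (p : 𝓞 K) ∈ v'.asIdeal → v' = v) →
      (∃ z : ℂ, aeval z (hecke a b v) = 0 ∧ ¬ IsPower p z) → Irreducible ρ) := by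
  classical
  set S : HeightOneSpectrum (𝓞 K) → Multiset ℂ :=
    fun v => ((hecke a b v).map (algebraMap E ℂ)).roots with hSdef
  have hmon : ∀ v, (hecke a b v).Monic := by
    intro v
    unfold hecke
    monicity!
  have hmem : ∀ v z, z ∈ S v ↔ aeval z (hecke a b v) = 0 := by
    intro v z
    rw [hSdef]
    simp only
    rw [mem_roots ((hmon v).map _).ne_zero, IsRoot.def, eval_map_algebraMap]
  have hgood : ∀ p ∈ T, ∀ v : HeightOneSpectrum (𝓞 K), (p : 𝓞 K) ∈ v.asIdeal →
      ∀ Q : Ideal (𝓞 (AlgebraicClosure K)), Q.IsPrime →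
      Q.comap (algebraMap (𝓞 K) (𝓞 (AlgebraicClosure K))) = v.asIdeal →
      (∀ g, IsInertia Q g → ρ g = 1) ∧ ∀ g, IsFrobenius v Q g →
        ((mat ρ g).charpoly.map ι).roots = S v := by
    intro p hp v hv Q hQ hQv
    refine ⟨(hS p hp v hv).unramified Q ⟨hQ, hQv⟩, fun g hg => ?_⟩
    rw [(hS p hp v hv).frobenius Q ⟨hQ, hQv⟩ g hg]
  have halg : ∀ p ∈ T, ∀ v : HeightOneSpectrum (𝓞 K), (p : 𝓞 K) ∈ v.asIdeal →
      ∀ z ∈ S v, IsAlgebraic ℚ z := by
    intro p _ v _ z hz
    have h1 : IsAlgebraic E z := ⟨hecke a b v, (hmon v).ne_zero, (hmem v z).1 hz⟩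
    exact h1.restrictScalars ℚ
  have key := fun (U : Submodule (PadicAlgCl ℓ) (Fin 2 → PadicAlgCl ℓ))
      (hU : ∀ g, ∀ x ∈ U, mat ρ g *ᵥ x ∈ U) =>
    Pool.Agent.H320R.OH.exists_A ℓ ρ hρ ι T hT3 hT S hgood halg U (fun g x hx => hU g x hx)
  have hcard : ∀ v, Multiset.card (S v) = 2 := by
    intro v
    have h2 : ((hecke a b v).map (algebraMap E ℂ)).Splits := IsAlgClosed.splits _
    rw [hSdef]
    simp only
    rw [← h2.natDegree_eq_card_roots, Polynomial.natDegree_map]
    unfold hecke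
    compute_degree!
  -- a stable line
  have hline : ∀ U : Submodule (PadicAlgCl ℓ) (Fin 2 → PadicAlgCl ℓ), U ≠ ⊥ → U ≠ ⊤ →
      finrank (PadicAlgCl ℓ) U = 1 := by
    intro U hb ht
    have h2 := Submodule.finrank_lt ht
    rw [finrank_fin_fun] at h2
    have h3 : finrank (PadicAlgCl ℓ) U ≠ 0 := fun h0 => hb (Submodule.finrank_eq_zero.1 h0)
    omega
  have hred : ∀ U : Submodule (PadicAlgCl ℓ) (Fin 2 → PadicAlgCl ℓ),
      (∀ g, ∀ x ∈ U, mat ρ g *ᵥ x ∈ U) → U ≠ ⊥ → U ≠ ⊤ → ∀ p ∈ T, HasRelation a b p := by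
    intro U hU hb ht p hp
    obtain ⟨A, hA, hrel⟩ := key U hU
    obtain ⟨N, c, hN, hprod⟩ := hrel p hp
    refine ⟨fun v => (A v).prod, fun v hv => ?_, N, c, hN, hprod⟩
    obtain ⟨h1, h2⟩ := hA p hp v hv
    rw [hline U hb ht, Multiset.card_eq_one] at h1
    obtain ⟨y, hy⟩ := h1
    show aeval (A v).prod (hecke a b v) = 0
    rw [hy] at h2 ⊢
    rw [Multiset.prod_singleton, ← hmem]
    exact Multiset.mem_of_le h2 (Multiset.mem_singleton_self y)
  have h1 : ¬ Irreducible ρ → ∀ p ∈ T, HasRelation a b p := by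
    intro h
    unfold Irreducible at h
    push Not at h
    obtain ⟨U, hU, hb, ht⟩ := h
    exact hred U hU hb ht
  refine ⟨h1, ?_, ?_⟩
  · rintro ⟨p, hp, hno⟩
    by_contra h
    exact hno (h1 h p hp)
  · rintro p hp v hv hv' ⟨z, hz, hzp⟩
    by_contra h
    obtain ⟨y, hy, hyp⟩ := h1 h p hp
    apply hzp
    have hp0 : (p : ℂ) ≠ 0 := Nat.cast_ne_zero.2 (hT p hp).1.ne_zero
    have hone : ∀ f : HeightOneSpectrum (𝓞 K) → ℂ,
        (∏ᶠ (v' : HeightOneSpectrum (𝓞 K)) (_ : (p : 𝓞 K) ∈ v'.asIdeal), f v') = f v := by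
      intro f
      have h3 : ∀ v' : HeightOneSpectrum (𝓞 K), ((p : 𝓞 K) ∈ v'.asIdeal) ↔ v' = v :=
        fun v' => ⟨hv' v', fun h4 => by rw [h4]; exact hv⟩
      simp only [h3]
      rw [finprod_cond_eq_left]
    rw [hone] at hyp
    -- the product of the roots
    obtain ⟨A, hA, hrel⟩ := key ⊤ (fun g x _ => Submodule.mem_top)
    obtain ⟨N, c, hN, hprod⟩ := hrel p hp
    rw [hone (fun v => (A v).prod)] at hprod
    obtain ⟨h5, h6⟩ := hA p hp v hv
    rw [finrank_top, finrank_fin_fun] at h5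
    have h7 : A v = S v := Multiset.eq_of_le_of_card_le h6 (by rw [hcard v, h5])
    rw [h7] at hprod
    have hyS : y v ∈ S v := (hmem v _).2 (hy v hv)
    have hzS : z ∈ S v := (hmem v _).2 hz
    obtain ⟨B, hB⟩ := Multiset.exists_cons_of_mem hyS
    have hB1 : Multiset.card B = 1 := by
      have h8 := hcard v
      rw [hB, Multiset.card_cons] at h8
      omega
    obtain ⟨y', rfl⟩ := Multiset.card_eq_one.1 hB1
    rw [hB] at hzS hprod
    rw [Multiset.prod_cons, Multiset.prod_singleton] at hprod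
    rw [Multiset.mem_cons, Multiset.mem_singleton] at hzS
    rcases hzS with rfl | rfl
    · exact hyp
    · have h9 : z = (y v * z) / y v := by
        have h10 : y v ≠ 0 := Pool.Agent.H320R.OH.IsPower.ne_zero hp0 hyp
        field_simp
      rw [h9]
      exact Pool.Agent.H320R.OH.IsPower.div hp0 ⟨N, c, hN, hprod⟩ hyp

end Pool.Agent.Results.MP_976e2b_nt.OneHeckePolynomial
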